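import Pool.Agent.U610.PC.Stm

/-!
# Project PC, package OBS (helper452): the obstruction at an irreducible polynomial
-/

set_option autoImplicit false

namespace Pool.Agent.U452.PC

open Polynomial Pool.Agent.U610.PC

theorem choose_pairs {n : ℕ} (hn : 3 ≤ n) {P : ℤ[X]} {e : Fin n → ℕ} {R : Fin n → ℤ[X]}
    (hF : ¬ Free P e R) : ∃ T U : ℤ[X], ¬ SqMod P T ∧ ¬ SqMod P U ∧
      ∀ i j, i ≠ j → e i % 2 = e j % 2 → -(R i * R j) = T ∨ -(R i * R j) = U := by
  have h3 : ∀ i j k, i ≠ j → i ≠ k → j ≠ k → e i % 2 = e j % 2 → e i % 2 = e k % 2 → False :=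
    fun i j k a b c d f => hF (Or.inl ⟨i, j, k, a, b, c, d, f⟩)
  have h2 : ∀ i j, i ≠ j → e i % 2 = e j % 2 → ¬ SqMod P (-(R i * R j)) :=
    fun i j h1 h2 h3 => hF (Or.inr ⟨i, j, h1, h2, h3⟩)
  have hone : ∀ (r : ℕ) (i j : Fin n), i ≠ j → e i % 2 = r → e j % 2 = r →
      ∀ k l : Fin n, k ≠ l → e k % 2 = r → e l % 2 = r → -(R k * R l) = -(R i * R j) := by
    intro r i j hij hi hj k l hkl hk hl
    have hk' : k = i ∨ k = j := by
      by_contra h
      push Not at h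
      exact h3 k i j h.1 h.2 hij (by omega) (by omega)
    have hl' : l = i ∨ l = j := by
      by_contra h
      push Not at h
      exact h3 l i j h.1 h.2 hij (by omega) (by omega)
    rcases hk' with rfl | rfl <;> rcases hl' with rfl | rfl
    · exact absurd rfl hkl
    · rfl
    · rw [mul_comm]
    · exact absurd rfl hkl
  by_cases a1 : ∃ i j : Fin n, i ≠ j ∧ e i % 2 = 1 ∧ e j % 2 = 1
  · obtain ⟨k, l, hkl, hk, hl⟩ := a1
    by_cases a0 : ∃ i j : Fin n, i ≠ j ∧ e i % 2 = 0 ∧ e j % 2 = 0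
    · obtain ⟨i, j, hij, hi, hj⟩ := a0
      refine ⟨-(R i * R j), -(R k * R l), h2 i j hij (by omega), h2 k l hkl (by omega), ?_⟩
      intro x y hxy hp
      rcases Nat.mod_two_eq_zero_or_one (e x) with h | h
      · left
        exact hone 0 i j hij hi hj x y hxy h (by omega)
      · right
        exact hone 1 k l hkl hk hl x y hxy h (by omega)
    · refine ⟨-(R k * R l), -(R k * R l), h2 k l hkl (by omega), h2 k l hkl (by omega), ?_⟩
      intro x y hxy hp
      left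
      rcases Nat.mod_two_eq_zero_or_one (e x) with h | h
      · exact absurd ⟨x, y, hxy, h, by omega⟩ a0
      · exact hone 1 k l hkl hk hl x y hxy h (by omega)
  · have hodd : ∀ i j : Fin n, i ≠ j → ¬ (e i % 2 = 1 ∧ e j % 2 = 1) := by
      intro i j hij h
      exact a1 ⟨i, j, hij, h.1, h.2⟩
    have b1 := hodd ⟨0, by omega⟩ ⟨1, by omega⟩ (by simp [Fin.ext_iff])
    have b2 := hodd ⟨0, by omega⟩ ⟨2, by omega⟩ (by simp [Fin.ext_iff])
    have b3 := hodd ⟨1, by omega⟩ ⟨2, by omega⟩ (by simp [Fin.ext_iff])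
    have a0 : ∃ i j : Fin n, i ≠ j ∧ e i % 2 = 0 ∧ e j % 2 = 0 := by
      rcases Nat.mod_two_eq_zero_or_one (e ⟨0, by omega⟩) with c0 | c0
      · rcases Nat.mod_two_eq_zero_or_one (e ⟨1, by omega⟩) with c1 | c1
        · exact ⟨⟨0, by omega⟩, ⟨1, by omega⟩, by simp [Fin.ext_iff], c0, c1⟩
        · rcases Nat.mod_two_eq_zero_or_one (e ⟨2, by omega⟩) with c2 | c2
          · exact ⟨⟨0, by omega⟩, ⟨2, by omega⟩, by simp [Fin.ext_iff], c0, c2⟩
          · exact absurd ⟨c1, c2⟩ b3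
      · rcases Nat.mod_two_eq_zero_or_one (e ⟨1, by omega⟩) with c1 | c1
        · rcases Nat.mod_two_eq_zero_or_one (e ⟨2, by omega⟩) with c2 | c2
          · exact ⟨⟨1, by omega⟩, ⟨2, by omega⟩, by simp [Fin.ext_iff], c1, c2⟩
          · exact absurd ⟨c0, c2⟩ b2
        · exact absurd ⟨c0, c1⟩ b1
    obtain ⟨i, j, hij, hi, hj⟩ := a0
    refine ⟨-(R i * R j), -(R i * R j), h2 i j hij (by omega), h2 i j hij (by omega), ?_⟩
    intro x y hxy hp
    left
    rcases Nat.mod_two_eq_zero_or_one (e x) with h | h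
    · exact hone 0 i j hij hi hj x y hxy h (by omega)
    · exact absurd ⟨x, y, hxy, h, by omega⟩ a1

theorem aeval_int {p : ℕ} [Fact p.Prime] (P : ℤ[X]) (a : ℤ) :
    (aeval ((a : ℤ) : ℤ_[p]) P : ℤ_[p]) = ((P.eval a : ℤ) : ℤ_[p]) := by
  have := Polynomial.aeval_algebraMap_apply ℤ_[p] a P
  simpa using this

theorem t_OBS (hC : S_CHEB) (hR : S_RES) (hA : S_ANI) : S_OBS := by
  intro n hn P e R hP hcop hF N
  obtain ⟨T, U, hT, hU, hTU⟩ := choose_pairs hn hF
  have hder : IsCoprime (q P) (q (derivative P)) := by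
    have h := hP.separable
    have h1 : q (derivative P) = derivative (q P) := (derivative_map P _).symm
    rw [h1]
    exact h
  obtain ⟨N1, hN1⟩ := hR P (derivative P) hder
  choose M hM using fun i => hR P (R i) (hcop i)
  obtain ⟨p, hpf, a, hNp, hpa, hTa, hUa⟩ := hC P T U hP hT hU (N + 2 + N1 + ∑ i, M i)
  have hMi : ∀ i, M i ≤ ∑ i, M i := fun i => Finset.single_le_sum (fun _ _ => Nat.zero_le _) (Finset.mem_univ i)
  have hp := hpf.out
  have hpP : Prime (p : ℤ) := Nat.prime_iff_prime_int.1 hp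
  have hxa : ‖(aeval ((a : ℤ) : ℤ_[p]) P : ℤ_[p])‖ < 1 := by
    rw [aeval_int, PadicInt.norm_int_lt_one_iff_dvd]
    exact hpa
  have hunit : ∀ S : ℤ[X], ‖(aeval ((a : ℤ) : ℤ_[p]) S : ℤ_[p])‖ = 1 → ¬ (p : ℤ) ∣ S.eval a := by
    intro S h h1
    rw [aeval_int] at h
    have := (PadicInt.norm_int_lt_one_iff_dvd (p := p) _).2 h1
    rw [h] at this
    exact lt_irrefl _ this
  have hd : ¬ (p : ℤ) ∣ (derivative P).eval a := hunit _ (hN1 p (by omega) _ hxa)
  have hRa : ∀ i, ¬ (p : ℤ) ∣ (R i).eval a := fun i =>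
    hunit _ (hM i p (by have := hMi i; omega) _ hxa)
  obtain ⟨a₀, ha₀, hsq⟩ : ∃ a₀ : ℤ, (p : ℤ) ∣ a₀ - a ∧ ¬ (p : ℤ) ^ 2 ∣ P.eval a₀ := by
    by_cases h : (p : ℤ) ^ 2 ∣ P.eval a
    · refine ⟨a + p, by simp, fun h1 => ?_⟩
      obtain ⟨k, hk⟩ := P.binomExpansion a (p : ℤ)
      rw [hk] at h1
      have h2 : (p : ℤ) ^ 2 ∣ (derivative P).eval a * p := by
        have h3 : (derivative P).eval a * (p : ℤ) =
            (P.eval a + (derivative P).eval a * p + k * (p : ℤ) ^ 2) - P.eval a - k * (p : ℤ) ^ 2 := by ring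
        rw [h3]
        exact dvd_sub (dvd_sub h1 h) (dvd_mul_left _ _)
      rw [sq] at h2
      exact hd (Int.dvd_of_mul_dvd_mul_right (by exact_mod_cast hp.ne_zero) h2)
    · exact ⟨a, by simp, h⟩
  refine ⟨p, hpf, a₀, by omega, fun b hb => ?_⟩
  have hb' : (p : ℤ) ∣ b - a := by
    have h1 : (p : ℤ) ∣ b - a₀ := (Dvd.intro_left _ (by ring : (p : ℤ) * p = (p : ℤ) ^ 2)).trans hb
    have h2 : b - a = (b - a₀) + (a₀ - a) := by ring
    rw [h2]
    exact dvd_add h1 ha₀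
  have hcong : ∀ S : ℤ[X], (p : ℤ) ∣ S.eval b - S.eval a := fun S => hb'.trans (S.sub_dvd_eval_sub b a)
  have hz : ∀ S : ℤ[X], ((S.eval b : ℤ) : ZMod p) = ((S.eval a : ℤ) : ZMod p) := by
    intro S
    have h := (ZMod.intCast_zmod_eq_zero_iff_dvd _ p).2 (hcong S)
    push_cast at h
    exact sub_eq_zero.1 h
  have hRb : ∀ i, ¬ (p : ℤ) ∣ (R i).eval b := by
    intro i h
    exact hRa i ((dvd_iff_dvd_of_dvd_sub (hcong (R i))).1 h)
  have hPb : (p : ℤ) ∣ P.eval b := (dvd_iff_dvd_of_dvd_sub (hcong P)).2 hpa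
  obtain ⟨w, hw⟩ := hPb
  have hpw : ¬ (p : ℤ) ∣ w := by
    rintro ⟨v, hv⟩
    apply hsq
    have h1 : (p : ℤ) ^ 2 ∣ P.eval b - P.eval a₀ := hb.trans (P.sub_dvd_eval_sub b a₀)
    exact (dvd_iff_dvd_of_dvd_sub h1).1 ⟨v, by rw [hw, hv]; ring⟩
  have hu : ∀ i, ¬ (p : ℤ) ∣ w ^ e i * (R i).eval b := by
    intro i h
    rcases hpP.dvd_or_dvd h with h1 | h1
    · exact hpw (hpP.dvd_of_dvd_pow h1)
    · exact hRb i h1
  have hw0 : ((w : ℤ) : ZMod p) ≠ 0 := by
    intro h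
    exact hpw ((ZMod.intCast_zmod_eq_zero_iff_dvd w p).1 h)
  have hmain := hA p (by omega) n e (fun i => w ^ e i * (R i).eval b) hu
    (fun h => hF (Or.inl h)) (by
      intro i j hij hpar hs
      have hns : ¬ IsSquare ((((-(R i * R j)).eval b : ℤ)) : ZMod p) := by
        rw [hz]
        rcases hTU i j hij hpar with h | h <;> rw [h]
        · exact hTa
        · exact hUa
      apply hns
      obtain ⟨k, hk⟩ : ∃ k, e i + e j = 2 * k := ⟨(e i + e j) / 2, by omega⟩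
      obtain ⟨s, hs⟩ := hs
      have h1 : (((-(w ^ e i * (R i).eval b * (w ^ e j * (R j).eval b)) : ℤ)) : ZMod p) =
          ((w : ZMod p) ^ k) ^ 2 * ((((-(R i * R j)).eval b : ℤ)) : ZMod p) := by
        rw [← pow_mul, mul_comm k 2, ← hk]
        simp only [eval_neg, eval_mul]
        push_cast
        ring
      rw [h1] at hs
      refine ⟨s / (w : ZMod p) ^ k, ?_⟩
      have h2 : ((w : ZMod p) ^ k) ≠ 0 := pow_ne_zero _ hw0
      field_simp
      linear_combination hs)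
  intro hI
  apply hmain
  have he : (fun i => (((p : ℤ) ^ e i * (w ^ e i * (R i).eval b) : ℤ) : ℚ_[p])) =
      fun i => ((((P ^ e i * R i).eval b : ℤ)) : ℚ_[p]) := by
    funext i
    congr 1
    rw [eval_mul, eval_pow, hw]
    ring
  rw [he]
  exact hI

end Pool.Agent.U452.PC
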